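import Pool.Agent.helper27.RA.SpecC
import Pool.Agent.helper4.PL.DIO

/-! Block A_R (ra:), row MRT (the recentred limit satisfies the differential inequality, two phase form); after Pool/Agent/helper9/RA/MRM.lean. -/

set_option autoImplicit false

open Complex Metric Set Filter Topology MeasureTheory
open HY (UD T S hd UN RM)
open RT
open PL (cm BS DQ)
open RB (VL LO FLS FL CLS FR TL TLL INN WIN DRT TWJ TWD)

noncomputable section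

namespace RA

/-- **MRT** -/
theorem MRT (hMOB : HY.MOB_stmt) (hTDF : RT.TDF_stmt) (hTIN : RT.TIN_stmt) (hVIT : RS.VIT_stmt) (hVPB : RS.VPB_stmt) (hVCF : RS.VCF_stmt) (hLHD : LHD_stmt)
    (hDLM : PL.DLM_stmt) (hDCO : PL.DCO_stmt) (hMFT : MFT_stmt) (hTLB : TLB_stmt) (hMDG : MDG_stmt) : MRT_stmt := by
  intro Y s hS μ hIB P hCLS x hx U k H χ hk hFR w Fj F hTL hwk a ha hW hTW
  have hPL : ∀ᶠ j in (U : Filter ℕ), P (k j) (x j) (H j) ∧ LO Y (x j) a (H j - w j) (w j) := by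
    filter_upwards [hW 1 le_rfl, hwk] with j h1 h2
    have e5 : H j - w j + w j = H j := Nat.sub_add_cancel h2.1
    obtain ⟨-, -, -, -, -, hPJ⟩ := hVPB Y s 0 0 hS.ok Y.U hS.lv
    obtain ⟨hTa, hxa, -, -, -, hle, -⟩ := hVCF Y s 0 0 hS.ok Y.U hS.lv (H j + 1) (x j) (hPJ _ (hx j))
    obtain ⟨hTb, -⟩ := hVCF Y s 0 0 hS.ok Y.U hS.lv (H j) (x j) (hPJ _ (hx j))
    have t1 := (hTIN s _ _ hS.ok.s0 hTa hTb (hle _ (by omega)) (x j) hxa).1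
    have h3 := h1 (w j) le_rfl (by rw [e5, one_mul]; exact t1)
    rw [e5] at h3
    exact h3
  have hFL : FL Y μ x U H := hCLS.fl U k H x hFR.le hk (hPL.mono fun j h => h.1)
  obtain ⟨u, u₀, hu₀, hut, hug⟩ := hMDG Y s hS μ hIB x hx U H χ hFR hFL w Fj F hTL a ha (hPL.mono fun j h => h.2)
  obtain ⟨hFd, hFm, -, hFj⟩ := hTLB Y x U H w Fj F hTL
  obtain ⟨hm, -, -, -, hSd, -⟩ := hMOB u₀ hu₀
  refine ⟨u₀, hu₀, hDLM U (fun j v => Fj j (S (u j) v)) (fun v => F (S u₀ v)) ?_ ?_ ?_⟩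
  · filter_upwards [hFj, hug] with j hj hj2
    obtain ⟨hm', -, -, -, hSd', -⟩ := hMOB (u j) hj2.1
    exact hj.1.comp hSd' (fun v hv => (hm' v hv).2.1)
  · exact hDCO U UD UD Fj (fun j => S (u j)) F (S u₀) isOpen_ball isOpen_ball
      hFd.continuousOn hSd.continuousOn (fun v hv => (hm v hv).2.1) hTL.cv (PL.DRM_loc hu₀ hut)
  · intro ρ α hρ hα
    obtain ⟨L, lam, hL, hlam, h⟩ := hMFT Y s hS μ hIB P hCLS a (a / 2) ρ α ha (by linarith) hρ hα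
    obtain ⟨e, he, hne⟩ := hTW L lam hL hlam
    obtain ⟨c, k₁, hc, h⟩ := h e he
    refine ⟨c, hc, ?_⟩
    filter_upwards [hW L hL, hug, hk.eventually_ge_atTop k₁, hwk, hne, hTL.lf] with j h1 h2 h3 h4 h6 h7 r hr0 hr1
    obtain ⟨e1, e2, e3, e4⟩ := h2
    obtain ⟨T₀, hT₀, hlo, h6⟩ := h6
    have e5 : H j - w j + w j = H j := Nat.sub_add_cancel h4.1
    obtain ⟨-, -, -, -, -, hVJ⟩ := hVIT Y s 0 0 hS.ok
    obtain ⟨-, -, -, -, -, hPJ⟩ := hVPB Y s 0 0 hS.ok Y.U hS.lv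
    have hq : it Y (w j) (x j) ∈ Y.J := (hVJ _ (hx j) (w j)).2
    obtain ⟨hTD, hxV, -, hV, -, -, hmt, hdi, -⟩ := hVCF Y s 0 0 hS.ok Y.U hS.lv (H j) (x j) (hPJ _ (hx j))
    obtain ⟨hTD', hqV, -⟩ := hVCF Y s 0 0 hS.ok Y.U hS.lv (H j - w j) (it Y (w j) (x j)) (hPJ _ hq)
    obtain ⟨-, -, -, -, -, -, hT⟩ := hTDF s _ hTD (x j) hxV
    obtain ⟨t1, t3, -⟩ := hT (u j) e1
    have e6 : VC Y Y.U (H j) (rm (VL Y (H j) (x j)) (x j) (u j)) = VC Y Y.U (H j) (x j) := hV _ t1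
    have e7 := ((hLHD s (VL Y (H j) (x j)) (VL Y (H j - w j) (it Y (w j) (x j))) (it Y (w j)) hTD hTD' (hdi _ h4.1) (hmt _ h4.1)
      (x j) hxV _ hqV (Fj j) h7.1).1 (u j) e1).1
    refine h (k j) h3 (x j) (H j - w j) (w j) T₀ (hx j) h4.2 hT₀ h1 hlo (Fj j) (by rw [e5]; exact h7.1) h7.2 (u j) e1 e2 (by rw [e5]; exact e3) e4 ?_ r hr0 hr1
    intro v v' hvv hv' hcr
    rw [e5] at hcr ⊢
    refine h6 _ e3 t1 (t3.trans e2) (by rw [← e7]; exact e4) v v' hvv hv' ?_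
    show cr (VL Y (H j - w j + v) (rm (VL Y (H j) (x j)) (x j) (u j))) (rm (VL Y (H j) (x j)) (x j) (u j)) ≤ L * cr (VC Y Y.U (H j) (rm (VL Y (H j) (x j)) (x j) (u j))) _
    rw [e6]
    exact hcr

end RA
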